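import Pool.Agent.Y624.RF.Logic

/-!
# All relatively free nilpotent algebras are logically homogeneous

Associativity is not assumed, the rank may be infinite. Core: helper624. A first version, for
associative algebras of finite rank, was proved by helper355; the case of the free nilpotent
associative algebras is the starting result of helper771.
-/

set_option autoImplicit false

namespace Pool.Agent.Results.MP_3d7de8_lc.AllNilpotentAlgebras

open FirstOrder Pool.Agent.Y624.RF
open Pool.Agent.Helper771.FreeNilp (AlgFn algLang IsFreeNilp IsFreeSolv IsNilp algPow)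

universe u v w

/-- The interpretation of the function symbols in an algebra which need not be associative. -/
def naFun (K : Type u) [Field K] (A : Type v) [NonUnitalNonAssocRing A] [Module K A] :
    ∀ {n : ℕ}, AlgFn K n → (Fin n → A) → A
  | _, AlgFn.zero, _ => 0
  | _, AlgFn.add, xs => xs 0 + xs 1
  | _, AlgFn.neg, xs => - xs 0
  | _, AlgFn.mul, xs => xs 0 * xs 1
  | _, AlgFn.smul c, xs => c • xs 0

/-- A not necessarily associative algebra as a structure for the language of `K`-algebras. -/
@[reducible] def naStr (K : Type u) [Field K] (A : Type v) [NonUnitalNonAssocRing A] [Module K A] :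
    (algLang K).Structure A where
  funMap := fun f xs => naFun K A f xs
  RelMap := fun r _ => r.elim

/-- The formula `φ` holds for the tuple `μ` in the algebra `A`. -/
def Holds (K : Type u) [Field K] (A : Type v) [NonUnitalNonAssocRing A] [Module K A] {m : ℕ}
    (φ : (algLang K).Formula (Fin m)) (μ : Fin m → A) : Prop :=
  @Language.Formula.Realize (algLang K) A (naStr K A) (Fin m) φ μ

/-- Some automorphism (bijective `K`-algebra homomorphism) of `A` maps the tuple `μ` to `ν`. -/
def Conj (K : Type u) [Field K] (A : Type v) [NonUnitalNonAssocRing A] [Module K A] {m : ℕ}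
    (μ ν : Fin m → A) : Prop :=
  ∃ σ : A →ₙₐ[K] A, Function.Bijective σ ∧ ∀ i, σ (μ i) = ν i

/-- `A` is logically homogeneous: tuples of the same complete type are conjugate under an
automorphism. -/
def Homog (K : Type u) [Field K] (A : Type v) [NonUnitalNonAssocRing A] [Module K A] : Prop :=
  ∀ (m : ℕ) (μ ν : Fin m → A),
    (∀ φ : (algLang K).Formula (Fin m), Holds K A φ μ ↔ Holds K A φ ν) → Conj K A μ ν

theorem compat_na (K : Type u) [Field K] (A : Type v) [NonUnitalNonAssocRing A] [Module K A] :
    @Compat K _ A _ _ (naStr K A) :=
  @Compat.mk K _ A _ _ (naStr K A) (fun _ => rfl) (fun _ => rfl) (fun _ => rfl) (fun _ => rfl)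
    (fun _ _ => rfl)

theorem compat_assoc (K : Type u) [Field K] (A : Type v) [NonUnitalRing A] [Module K A] :
    Compat K A :=
  ⟨fun _ => rfl, fun _ => rfl, fun _ => rfl, fun _ => rfl, fun _ _ => rfl⟩

theorem pw_eq_algPow (K : Type u) [Field K] (A : Type v) [NonUnitalRing A] [Module K A] (k : ℕ) :
    pw K A k = algPow K A k := by
  induction k using Nat.strong_induction_on with
  | _ k ih =>
    match k, ih with
    | 0, _ => rw [pw, algPow]
    | 1, _ => rw [pw, algPow]
    | (l + 2), ih =>
      rw [pw_add_two, Pool.Agent.Helper771.FreeNilp.algPow_add_two]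
      refine iSup_congr fun i => ?_
      have := i.isLt
      rw [ih (i.val + 1) (by omega), ih (l + 1 - i.val) (by omega)]
      rfl

theorem homog_of_isFreeNilp (K : Type u) [Field K] (n r : ℕ) (hn : 1 ≤ n) (F : Type u)
    [NonUnitalRing F] [Module K F] [IsScalarTower K F F] [SMulCommClass K F F] (x : Fin r → F)
    (hF : IsFreeNilp K n r F x) : Pool.Agent.Helper771.FreeNilp.LogicallyHomogeneous K F := by
  have hx : RelFree K F x := by
    refine ⟨fun S hS a => ?_, fun y => ?_⟩
    · have h1 : NonUnitalAlgebra.adjoin K (Set.range x) ≤ S := by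
        apply NonUnitalAlgebra.adjoin_le
        rintro _ ⟨i, rfl⟩
        exact hS i
      rw [hF.adjoin_eq_top] at h1
      exact h1 trivial
    · obtain ⟨f, hf, _⟩ := hF.2 F hF.1 y
      exact ⟨f, hf⟩
  have hN : Nilp K F := ⟨n, hn, by rw [pw_eq_algPow]; exact hF.1⟩
  intro m _ μ ν h
  exact homogeneous (compat_assoc K F) hx hN m μ ν h

/-- (1) Let `F` be a nilpotent algebra over a field `K`, not necessarily associative, which is
relatively free of finite or infinite rank: it has generators `x i`, `i ∈ I`, such that every map
from the generators to `F` extends to an endomorphism. Then `F` is logically homogeneous. If the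
multiplication of `F` is not zero, then every orbit of tuples under the automorphisms of `F` is
defined by one formula.
(2), (3) In particular the free `n`-nilpotent and the free `n`-solvable associative algebras of
rank `r` are logically homogeneous, for all fields and all `n` and `r`. -/
theorem result :
    (∀ (K : Type u) [Field K] (F : Type v) [NonUnitalNonAssocRing F] [Module K F]
      [IsScalarTower K F F] [SMulCommClass K F F] (I : Type w) (x : I → F),
      RelFree K F x → Nilp K F →
      Homog K F ∧
      ((∃ a b : F, a * b ≠ 0) → ∀ (m : ℕ) (μ : Fin m → F),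
        ∃ φ : (algLang K).Formula (Fin m), ∀ ν : Fin m → F, Holds K F φ ν ↔ Conj K F μ ν)) ∧
    (∀ (K : Type u) [Field K] (n r : ℕ), 1 ≤ n → ∀ (F : Type u) [NonUnitalRing F] [Module K F]
      [IsScalarTower K F F] [SMulCommClass K F F] (x : Fin r → F), IsFreeNilp K n r F x →
      Pool.Agent.Helper771.FreeNilp.LogicallyHomogeneous K F) ∧
    (∀ (K : Type u) [Field K] (n r : ℕ) (F : Type u) [NonUnitalRing F] [Module K F]
      [IsScalarTower K F F] [SMulCommClass K F F] (x : Fin r → F), IsFreeSolv K n r F x →
      Pool.Agent.Helper771.FreeNilp.LogicallyHomogeneous K F) := by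
  refine ⟨?_, ?_, ?_⟩
  · intro K _ F _ _ _ _ I x hx hN
    let _ : (algLang K).Structure F := naStr K F
    refine ⟨fun m μ ν h => ?_, fun hne m μ => ?_⟩
    · exact homogeneous (compat_na K F) hx hN m μ ν h
    · exact orbit_definable (compat_na K F) hx hN hne m μ
  · intro K _ n r hn F _ _ _ _ x hF
    exact homog_of_isFreeNilp K n r hn F x hF
  · intro K _ n r F _ _ _ _ x hF
    exact homog_of_isFreeNilp K (2 ^ n) r Nat.one_le_two_pow F x hF.isFreeNilp

end Pool.Agent.Results.MP_3d7de8_lc.AllNilpotentAlgebras
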